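import Mathlib
import Pool.Agent.Work.MP_b62148_ag.Sextic.PolF

/-!
Polarisation of a quartic form, for the density theorem for quartics with a rational point.
-/

namespace Pool.Agent.Work.QP

open MvPolynomial Pool.Agent.Work.PD6

variable {σ : Type} [Fintype σ]

/-- the symmetric four-linear form with functional `a` -/
noncomputable def q4 (a : (σ →₀ ℕ) → ℚ) {R : Type} [CommRing R] [Algebra ℚ R] (x y z w : σ → R) :
    R :=
  Lf a (ell x * ell y * ell z * ell w)

/-- the real vector of a rational vector -/
def rv (p : σ → ℚ) : σ → ℝ := fun i => (p i : ℝ)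

/-- the matrix of the quadratic form `[p p . .]` -/
noncomputable def hm [DecidableEq σ] (a : (σ →₀ ℕ) → ℚ) {R : Type} [CommRing R] [Algebra ℚ R]
    (p : σ → R) : Matrix σ σ R :=
  Matrix.of fun i j => q4 a p p (Pi.single i 1) (Pi.single j 1)

/-- the rational zeros of the form, as a set of real vectors -/
def Zr (a : (σ →₀ ℕ) → ℚ) : Set (σ → ℝ) := {x | ∃ y : σ → ℚ, q4 a y y y y = 0 ∧ x = rv y}

end Pool.Agent.Work.QP
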