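import Mathlib
import Pool.Agent.Work.MP_b62148_ag.QPoint.Defs
import Pool.Agent.Work.MP_b62148_ag.Meyer.Skel

/-!
Module Approx: approximation of real zeros of a quartic form by rational zeros.
-/

namespace Pool.Agent.Work.QP

open MvPolynomial Pool.Agent.Work.PD6 Filter Topology

variable {σ : Type} [Fintype σ]

section Alg

variable (a : (σ →₀ ℕ) → ℚ) {R : Type} [CommRing R] [Algebra ℚ R]

theorem q4_add (x y z u v : σ → R) : q4 a x y z (u + v) = q4 a x y z u + q4 a x y z v := by
  simp only [q4, ell_add, mul_add, map_add]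

theorem q4_smul (x y z u : σ → R) (r : R) : q4 a x y z (r • u) = r * q4 a x y z u := by
  rw [q4, q4, ell_smul, ← Lf_C_mul]
  congr 1
  ring

theorem q4_sub (x y z u v : σ → R) : q4 a x y z (u - v) = q4 a x y z u - q4 a x y z v := by
  simp only [q4, ell_sub, mul_sub, map_sub]

/-- cyclic symmetry -/
theorem q4_rot (x y z w : σ → R) : q4 a x y z w = q4 a w x y z := by
  rw [q4, q4]
  congr 1
  ring

theorem q4_swap (x y z w : σ → R) : q4 a x y z w = q4 a x y w z := by
  rw [q4, q4]
  congr 1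
  ring

/-- expansion in the last argument -/
theorem q4_last [DecidableEq σ] (x y z w : σ → R) :
    q4 a x y z w = ∑ l, w l * q4 a x y z (Pi.single l 1) := by
  rw [q4, Lf_ell_eq_sum]
  exact Finset.sum_congr rfl fun j _ => mul_comm _ _

/-- compatibility with maps of the coefficients -/
theorem map_q4 {S : Type} [CommRing S] [Algebra ℚ S] (g : R →ₐ[ℚ] S) (x y z w : σ → R) :
    g (q4 a x y z w) = q4 a (fun i => g (x i)) (fun i => g (y i)) (fun i => g (z i))
      (fun i => g (w i)) := by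
  rw [q4, map_Lf, RingHom.map_mul, RingHom.map_mul, RingHom.map_mul, map_ell, map_ell, map_ell,
    map_ell]
  rfl

theorem rv_q4 (x y z w : σ → ℚ) : q4 a (rv x) (rv y) (rv z) (rv w) = ((q4 a x y z w : ℚ) : ℝ) := by
  have h := map_q4 a (Algebra.ofId ℚ ℝ) x y z w
  exact h.symm

omit [Fintype σ] in
theorem rv_single [DecidableEq σ] (i : σ) : rv (Pi.single i 1 : σ → ℚ) = Pi.single i 1 := by
  funext j
  by_cases h : j = i
  · subst h; simp [rv]
  · simp [rv, Pi.single_eq_of_ne h]

end Alg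

section Cont

variable (a : (σ →₀ ℕ) → ℚ) {T : Type*} [TopologicalSpace T]

theorem cont_step [DecidableEq σ] {x y z w : T → σ → ℝ} (hw : Continuous w)
    (h : ∀ l, Continuous fun t => q4 a (x t) (y t) (z t) (Pi.single l 1)) :
    Continuous fun t => q4 a (x t) (y t) (z t) (w t) := by
  have h1 : ∀ t, q4 a (x t) (y t) (z t) (w t) =
      ∑ l, w t l * q4 a (x t) (y t) (z t) (Pi.single l 1) := fun t => q4_last a _ _ _ _
  rw [continuous_congr h1]
  exact continuous_finsetSum _ fun l _ => ((continuous_apply l).comp hw).mul (h l)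

theorem continuous_q4 {x y z w : T → σ → ℝ}
    (hx : Continuous x) (hy : Continuous y) (hz : Continuous z) (hw : Continuous w) :
    Continuous fun t => q4 a (x t) (y t) (z t) (w t) := by
  classical
  refine cont_step a hw fun l => ?_
  rw [continuous_congr fun t => q4_rot a (x t) (y t) (z t) (Pi.single l 1)]
  refine cont_step a hz fun k => ?_
  rw [continuous_congr fun t => q4_rot a (Pi.single l 1) (x t) (y t) (Pi.single k 1)]
  refine cont_step a hy fun j => ?_
  rw [continuous_congr fun t => q4_rot a (Pi.single k 1) (Pi.single l 1) (x t) (Pi.single j 1)]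
  exact cont_step a hx fun i => continuous_const

end Cont

section Form

variable (a : (σ →₀ ℕ) → ℚ)

theorem mb_hm [DecidableEq σ] (p : σ → ℚ) {R : Type} [CommRing R] [Algebra ℚ R] (x y : σ → R) :
    MY.mb (hm a p) x y =
      q4 a (fun i => algebraMap ℚ R (p i)) (fun i => algebraMap ℚ R (p i)) x y := by
  have h1 : ∀ i j : σ, algebraMap ℚ R (hm a p i j) =
      q4 a (fun i => algebraMap ℚ R (p i)) (fun i => algebraMap ℚ R (p i)) (Pi.single i 1)
        (Pi.single j 1) := by
    intro i j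
    have h := map_q4 a (Algebra.ofId ℚ R) p p (Pi.single i 1) (Pi.single j 1)
    have h2 : ∀ k : σ, (fun l => Algebra.ofId ℚ R ((Pi.single k 1 : σ → ℚ) l)) =
        Pi.single k 1 := by
      intro k
      funext l
      by_cases hl : l = k
      · subst hl; simp
      · simp [Pi.single_eq_of_ne hl]
    rw [h2, h2] at h
    exact h
  rw [MY.mb, q4_last, Finset.sum_comm]
  refine Finset.sum_congr rfl fun j _ => ?_
  rw [q4_swap, q4_last, Finset.mul_sum]
  refine Finset.sum_congr rfl fun i _ => ?_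
  rw [h1, q4_swap]
  ring

theorem hm_symm [DecidableEq σ] (p : σ → ℚ) : (hm a p).IsSymm := by
  ext i j
  rw [Matrix.transpose_apply, hm, Matrix.of_apply, Matrix.of_apply, q4_swap]

end Form

section Zero

variable (a : (σ →₀ ℕ) → ℚ) {R : Type} [CommRing R] [Algebra ℚ R]

/-- the vector `Y` -/
noncomputable def yv (p y w : σ → R) : σ → R := q4 a p p w w • y - (2 * q4 a p p y w) • w

/-- the zero -/
noncomputable def zv (p Y : σ → R) : σ → R := (4 * q4 a p Y Y Y) • Y - q4 a Y Y Y Y • p

theorem yv_isotropic (p y w : σ → R) (hy : q4 a p p y y = 0) :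
    q4 a p p (yv a p y w) (yv a p y w) = 0 := by
  have h : q4 a p p (yv a p y w) (yv a p y w) =
      (q4 a p p w w) ^ 2 * q4 a p p y y := by
    have e : ∀ u v : R, q4 a p p (u • y - v • w) (u • y - v • w) =
        u ^ 2 * q4 a p p y y - 2 * u * v * q4 a p p y w + v ^ 2 * q4 a p p w w := by
      intro u v
      simp only [q4, ell_sub, ell_smul]
      rw [← Lf_C_mul, ← Lf_C_mul, ← Lf_C_mul, ← map_sub, ← map_add]
      congr 1
      simp only [map_mul, map_pow, map_ofNat]
      ring
    rw [yv, e]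
    ring
  rw [h, hy, mul_zero]

theorem yv_tangent (p y w : σ → R) (hy : q4 a p p p y = 0) (hw : q4 a p p p w = 0) :
    q4 a p p p (yv a p y w) = 0 := by
  rw [yv, q4_sub, q4_smul, q4_smul, hy, hw]
  ring

theorem zv_zero (p Y : σ → R) (hp : q4 a p p p p = 0) (h3 : q4 a p p p Y = 0)
    (h2 : q4 a p p Y Y = 0) : q4 a (zv a p Y) (zv a p Y) (zv a p Y) (zv a p Y) = 0 := by
  have e : ∀ u v : R, q4 a (u • Y - v • p) (u • Y - v • p) (u • Y - v • p) (u • Y - v • p) =
      u ^ 4 * q4 a Y Y Y Y - 4 * u ^ 3 * v * q4 a p Y Y Y + 6 * u ^ 2 * v ^ 2 * q4 a p p Y Y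
        - 4 * u * v ^ 3 * q4 a p p p Y + v ^ 4 * q4 a p p p p := by
    intro u v
    simp only [q4, ell_sub, ell_smul]
    rw [← Lf_C_mul, ← Lf_C_mul, ← Lf_C_mul, ← Lf_C_mul, ← Lf_C_mul, ← map_sub, ← map_add,
      ← map_sub, ← map_add]
    congr 1
    simp only [map_mul, map_pow, map_ofNat]
    ring
  rw [zv, e, hp, h3, h2]
  ring

theorem q4_smul4 (r : R) (x : σ → R) : q4 a (r • x) (r • x) (r • x) (r • x) =
    r ^ 4 * q4 a x x x x := by
  simp only [q4, ell_smul]
  rw [← Lf_C_mul]
  congr 1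
  simp only [map_pow]
  ring

end Zero

theorem rv_yv (a : (σ →₀ ℕ) → ℚ) (p y w : σ → ℚ) :
    yv a (rv p) (rv y) (rv w) = rv (yv a p y w) := by
  funext i
  simp only [yv, rv_q4, Pi.sub_apply, Pi.smul_apply, smul_eq_mul, rv]
  push_cast
  ring

theorem rv_zv (a : (σ →₀ ℕ) → ℚ) (p Y : σ → ℚ) :
    zv a (rv p) (rv Y) = rv (zv a p Y) := by
  funext i
  simp only [zv, rv_q4, Pi.sub_apply, Pi.smul_apply, smul_eq_mul, rv]
  push_cast
  ring

omit [Fintype σ] in
theorem dense_rv : DenseRange (rv : (σ → ℚ) → (σ → ℝ)) :=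
  DenseRange.piMap fun _ => Rat.denseRange_cast

/-- real points of the tangent space which satisfy the conditions are limits of rational zeros -/
theorem approx [DecidableEq σ] (a : (σ →₀ ℕ) → ℚ) (p : σ → ℚ) (hp : q4 a p p p p = 0)
    (hr : 7 ≤ (hm a p).rank) (hp0 : ∃ u : σ → ℚ, q4 a p p p u ≠ 0)
    (x : σ → ℝ) (h1 : q4 a (rv p) (rv p) (rv p) x = 0)
    (h2 : q4 a (rv p) (rv p) x x = 0) (h3 : q4 a (rv p) x x x ≠ 0) (h4 : q4 a x x x x = 0)
    (hns : ∃ u : σ → ℝ, q4 a (rv p) (rv p) (rv p) u = 0 ∧ q4 a (rv p) (rv p) x u ≠ 0) :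
    x ∈ closure (Zr a) := by
  have hmbr : ∀ u v : σ → ℝ, MY.mb (hm a p) u v = q4 a (rv p) (rv p) u v := fun u v =>
    mb_hm a p u v
  have hmbq : ∀ u v : σ → ℚ, MY.mb (hm a p) u v = q4 a p p u v := fun u v => mb_hm a p u v
  obtain ⟨y, hy1, hy2, hy3⟩ := MY.exists_isotropic (hm a p) (hm_symm a p) hr p
    (by rw [hmbq, hp]) (by
      obtain ⟨u, hu⟩ := hp0
      exact ⟨u, by rw [hmbq]; exact hu⟩) x
    (by rw [hmbr]; exact h1) (by rw [hmbr]; exact h2) (by
      obtain ⟨u, hu, hu'⟩ := hns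
      exact ⟨u, by rw [hmbr]; exact hu, by rw [hmbr]; exact hu'⟩)
  rw [hmbq] at hy1 hy2
  rw [hmbr] at hy3
  obtain ⟨e0, he0⟩ := hp0
  set e : σ → ℚ := (q4 a p p p e0)⁻¹ • e0 with he
  have he1 : q4 a p p p e = 1 := by
    rw [he, q4_smul, inv_mul_cancel₀ he0]
  -- the maps
  let W : (σ → ℝ) → (σ → ℝ) := fun v => v - q4 a (rv p) (rv p) (rv p) v • rv e
  let Φ : (σ → ℝ) × ℝ → (σ → ℝ) := fun s => s.2 • zv a (rv p) (yv a (rv p) (rv y) (W s.1))
  have hWc : Continuous W := by
    have h := continuous_q4 a (T := σ → ℝ) (x := fun _ => rv p) (y := fun _ => rv p)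
      (z := fun _ => rv p) (w := fun v => v) continuous_const continuous_const continuous_const
      continuous_id
    exact continuous_id.sub (h.smul continuous_const)
  have hYc : Continuous fun v => yv a (rv p) (rv y) (W v) := by
    have h := continuous_q4 a (T := σ → ℝ) (x := fun _ => rv p) (y := fun _ => rv p)
      (z := W) (w := W) continuous_const continuous_const hWc hWc
    have h' := continuous_q4 a (T := σ → ℝ) (x := fun _ => rv p) (y := fun _ => rv p)
      (z := fun _ => rv y) (w := W) continuous_const continuous_const continuous_const hWc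
    exact (h.smul continuous_const).sub ((continuous_const.mul h').smul hWc)
  have hZc : Continuous fun v => zv a (rv p) (yv a (rv p) (rv y) (W v)) := by
    have h := continuous_q4 a (T := σ → ℝ) (x := fun _ => rv p) continuous_const hYc hYc hYc
    have h' := continuous_q4 a (T := σ → ℝ) hYc hYc hYc hYc
    exact ((continuous_const.mul h).smul hYc).sub (h'.smul continuous_const)
  have hΦc : Continuous Φ := continuous_snd.smul (hZc.comp continuous_fst)
  -- the value at `x`
  set m : ℝ := -(2 * q4 a (rv p) (rv p) (rv y) x) with hm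
  have hm0 : m ≠ 0 := by
    rw [hm, neg_ne_zero]
    exact mul_ne_zero two_ne_zero hy3
  have hWx : W x = x := by
    simp only [W]
    rw [h1, zero_smul, sub_zero]
  have hYx : yv a (rv p) (rv y) (W x) = m • x := by
    rw [hWx, yv, h2, zero_smul, zero_sub, hm, neg_smul]
  have hZx : zv a (rv p) (m • x) = (4 * m ^ 4 * q4 a (rv p) x x x) • x := by
    rw [zv, q4_smul4, h4, mul_zero, zero_smul, sub_zero]
    have h5 : q4 a (rv p) (m • x) (m • x) (m • x) = m ^ 3 * q4 a (rv p) x x x := by
      simp only [q4, ell_smul]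
      rw [← Lf_C_mul]
      congr 1
      simp only [map_pow]
      ring
    rw [h5, smul_smul]
    congr 1
    ring
  set c : ℝ := 4 * m ^ 4 * q4 a (rv p) x x x with hc
  have hc0 : c ≠ 0 := by
    rw [hc]
    exact mul_ne_zero (mul_ne_zero (by norm_num) (pow_ne_zero _ hm0)) h3
  have hΦx : Φ (x, c⁻¹) = x := by
    simp only [Φ]
    rw [hYx, hZx, smul_smul, inv_mul_cancel₀ hc0, one_smul]
  -- rational points
  have hmaps : Set.MapsTo Φ (Set.range (rv : (σ → ℚ) → (σ → ℝ)) ×ˢ Set.range ((↑) : ℚ → ℝ))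
      (Zr a) := by
    rintro ⟨_, _⟩ ⟨⟨v, rfl⟩, ⟨l, rfl⟩⟩
    set w : σ → ℚ := v - q4 a p p p v • e with hw
    have hW : W (rv v) = rv w := by
      funext i
      simp only [W, rv_q4, hw, rv, Pi.sub_apply, Pi.smul_apply, smul_eq_mul]
      push_cast
      ring
    have hw0 : q4 a p p p w = 0 := by
      rw [hw, q4_sub, q4_smul, he1]
      ring
    refine ⟨l • zv a p (yv a p y w), ?_, ?_⟩
    · rw [q4_smul4, zv_zero a p _ hp (yv_tangent a p y w hy1 hw0) (yv_isotropic a p y w hy2),
        mul_zero]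
    · simp only [Φ]
      rw [hW, rv_yv, rv_zv]
      funext i
      simp only [rv, Pi.smul_apply, smul_eq_mul]
      push_cast
      rfl
  have hdense : (x, c⁻¹) ∈ closure (Set.range (rv : (σ → ℚ) → (σ → ℝ)) ×ˢ
      Set.range ((↑) : ℚ → ℝ)) := by
    rw [closure_prod_eq]
    exact ⟨dense_rv x, Rat.denseRange_cast _⟩
  have := map_mem_closure hΦc hdense hmaps
  rwa [hΦx] at this

end Pool.Agent.Work.QP
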