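import Mathlib
import Pool.Agent.Work.MP_b62148_ag.QPoint.Defs

/-!
Module Elim: a polynomial which vanishes at the real zeros, near a smooth real zero, of an
irreducible rational polynomial is divisible by it.
-/

namespace Pool.Agent.Work.QP

open MvPolynomial Pool.Agent.Work.PD6 Filter Topology

variable {σ : Type} [Fintype σ]

namespace EL

omit [Fintype σ] in
/-- derivative in one coordinate -/
theorem hasDerivAt_aeval [DecidableEq σ] (F : MvPolynomial σ ℚ) (r : σ → ℝ) (i : σ) :
    HasDerivAt (fun t : ℝ => aeval (Function.update r i t) F) (aeval r (pderiv i F)) (r i) := by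
  have hr : Function.update r i (r i) = r := Function.update_eq_self i r
  induction F using MvPolynomial.induction_on with
  | C a =>
    simp only [aeval_C, pderiv_C, map_zero]
    exact hasDerivAt_const _ _
  | add p q hp hq =>
    simp only [map_add]
    exact hp.add hq
  | mul_X p j hp =>
    simp only [map_mul, aeval_X, pderiv_mul, map_add, pderiv_X]
    by_cases hj : j = i
    · subst hj
      have h1 := hp.fun_mul (hasDerivAt_id' (r j))
      rw [hr] at h1
      have h2 : (fun t : ℝ => aeval (Function.update r j t) p * Function.update r j t j) =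
          fun t => aeval (Function.update r j t) p * t := by
        funext t
        rw [Function.update_self]
      rw [h2, Pi.single_eq_same, map_one]
      exact h1
    · have h1 := hp.fun_mul (hasDerivAt_const (r i) (r j))
      have h2 : (fun t : ℝ => aeval (Function.update r i t) p * Function.update r i t j) =
          fun t => aeval (Function.update r i t) p * r j := by
        funext t
        rw [Function.update_of_ne hj]
      rw [hr] at h1
      rw [h2, Pi.single_eq_of_ne hj, map_zero]
      exact h1

omit [Fintype σ] in
/-- the elimination identity -/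
theorem exists_elim [DecidableEq σ] (F : MvPolynomial σ ℚ) (hirr : Irreducible F) (i : σ)
    (hi : pderiv i F ≠ 0) (G : MvPolynomial σ ℚ) (hndvd : ¬ F ∣ G) :
    ∃ (A B : MvPolynomial σ ℚ) (c : MvPolynomial {j : σ // j ≠ i} ℚ), c ≠ 0 ∧
      A * F + B * G = rename (Subtype.val : {j : σ // j ≠ i} → σ) c := by
  classical
  let ι := {j : σ // j ≠ i}
  let e : MvPolynomial σ ℚ ≃ₐ[ℚ] Polynomial (MvPolynomial ι ℚ) :=
    (renameEquiv ℚ (Equiv.optionSubtypeNe i).symm).trans (optionEquivLeft ℚ ι)
  let R := MvPolynomial ι ℚ
  let K := FractionRing R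
  have h3 : ∀ r : R, e (rename (Subtype.val : ι → σ) r) = Polynomial.C r := by
    intro r
    induction r using MvPolynomial.induction_on with
    | C a => simp [e]
    | add p q hp hq => simp only [map_add, hp, hq]
    | mul_X p j hp =>
      rw [map_mul, map_mul, hp, rename_X, map_mul]
      congr 1
      simp [e, Equiv.optionSubtypeNe_symm_of_ne j.2]
  have hdeg : (e F).natDegree ≠ 0 := by
    intro h0
    have h1 : e F = Polynomial.C ((e F).coeff 0) := Polynomial.eq_C_of_natDegree_eq_zero h0
    have h2 : F = rename (Subtype.val : ι → σ) ((e F).coeff 0) := by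
      apply e.injective
      rw [h3]
      exact h1
    apply hi
    rw [h2]
    apply pderiv_eq_zero_of_notMem_vars
    intro h5
    have h6 := vars_rename (Subtype.val : ι → σ) ((e F).coeff 0) h5
    rw [Finset.mem_image] at h6
    obtain ⟨j, -, hj⟩ := h6
    exact j.2 hj
  have hirr' : Irreducible (e F) := (MulEquiv.irreducible_iff e.toMulEquiv).mpr hirr
  have hprim : (e F).IsPrimitive := hirr'.isPrimitive hdeg
  have hirrK : Irreducible ((e F).map (algebraMap R K)) :=
    hprim.irreducible_iff_irreducible_map_fraction_map.mp hirr'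
  have hnd : ¬ ((e F).map (algebraMap R K) ∣ (e G).map (algebraMap R K)) := by
    intro h0
    apply hndvd
    have h1 : e F ∣ e G := hprim.dvd_of_fraction_map_dvd_fraction_map h0
    exact (map_dvd_iff e).mp h1
  obtain ⟨a, b, hab⟩ := (hirrK.coprime_iff_not_dvd).mpr hnd
  obtain ⟨u, hu1, hu⟩ := IsLocalization.integerNormalization_spec (nonZeroDivisors R) a
  obtain ⟨v, hv1, hv⟩ := IsLocalization.integerNormalization_spec (nonZeroDivisors R) b
  set A1 := IsLocalization.integerNormalization (nonZeroDivisors R) a
  set B1 := IsLocalization.integerNormalization (nonZeroDivisors R) b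
  have hu0 : (u : R) ≠ 0 := nonZeroDivisors.ne_zero hu1
  have hv0 : (v : R) ≠ 0 := nonZeroDivisors.ne_zero hv1
  have hid : Polynomial.C (v : R) * A1 * e F + Polynomial.C (u : R) * B1 * e G =
      Polynomial.C ((u : R) * v) := by
    apply Polynomial.map_injective (algebraMap R K) (IsFractionRing.injective R K)
    rw [Polynomial.map_add, Polynomial.map_mul, Polynomial.map_mul, Polynomial.map_mul,
      Polynomial.map_mul, hu, hv, Polynomial.map_C, Polynomial.map_C, Polynomial.map_C, map_mul]
    have e1 : ((u : R) • a : Polynomial K) = Polynomial.C (algebraMap R K u) * a := by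
      rw [← algebraMap_smul K (u : R) a, Polynomial.smul_eq_C_mul]
    have e2 : ((v : R) • b : Polynomial K) = Polynomial.C (algebraMap R K v) * b := by
      rw [← algebraMap_smul K (v : R) b, Polynomial.smul_eq_C_mul]
    rw [e1, e2, Polynomial.C_mul]
    linear_combination (Polynomial.C (algebraMap R K u) * Polynomial.C (algebraMap R K v)) * hab
  refine ⟨e.symm (Polynomial.C (v : R) * A1), e.symm (Polynomial.C (u : R) * B1), (u : R) * v,
    mul_ne_zero hu0 hv0, ?_⟩
  apply e.injective
  have h4 : ∀ (P : Polynomial R) (Q : MvPolynomial σ ℚ), e (e.symm P * Q) = P * e Q := by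
    intro P Q
    rw [map_mul, e.apply_symm_apply]
  rw [h3, map_add, h4, h4]
  exact hid

end EL

omit [Fintype σ] in
theorem EL.continuous_aeval (F : MvPolynomial σ ℚ) : Continuous fun y : σ → ℝ => aeval y F := by
  have h : (fun y : σ → ℝ => aeval y F) =
      fun y => eval y (MvPolynomial.map (algebraMap ℚ ℝ) F) := by
    funext y
    rw [eval_map, aeval_def]
  rw [h]
  exact MvPolynomial.continuous_eval _

theorem elim (F : MvPolynomial σ ℚ) (hF : Irreducible F) (r : σ → ℝ) (i : σ)
    (hr : aeval r F = 0) (hi : aeval r (pderiv i F) ≠ 0) (G : MvPolynomial σ ℚ)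
    (hG : ∀ᶠ r' in 𝓝 r, aeval r' F = 0 → aeval r' G = 0) : F ∣ G := by
  classical
  by_contra hnd
  obtain ⟨A, B, c, hc0, hc⟩ := EL.exists_elim F hF i (by
    intro h0
    rw [h0, map_zero] at hi
    exact hi rfl) G hnd
  apply hc0
  -- a box on which `c` vanishes
  obtain ⟨δ, hδ, hbox⟩ : ∃ δ > 0, ∀ y : σ → ℝ, (∀ j, |y j - r j| < δ) → ∃ t : ℝ,
      aeval (Function.update y i t) F = 0 ∧ aeval (Function.update y i t) G = 0 := by
    obtain ⟨ε, hε, hball⟩ := Metric.eventually_nhds_iff.mp hG
    set f' : ℝ := aeval r (pderiv i F) with hf'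
    have hder := EL.hasDerivAt_aeval F r i
    rw [← hf'] at hder
    have hf'0 : 0 < f' * f' := mul_self_pos.mpr hi
    have hslope : ∀ᶠ t in 𝓝[≠] (r i),
        0 < slope (fun t : ℝ => aeval (Function.update r i t) F) (r i) t * f' :=
      ((hder.tendsto_slope).mul_const f').eventually (lt_mem_nhds hf'0)
    rw [eventually_nhdsWithin_iff, Metric.eventually_nhds_iff] at hslope
    obtain ⟨η, hη, hsl⟩ := hslope
    set d : ℝ := min η ε / 2 with hd
    have hm : 0 < min η ε := lt_min hη hε
    have hd0 : 0 < d := by rw [hd]; linarith
    have hdη : d < η := by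
      have := min_le_left η ε
      rw [hd]; linarith
    have hdε : d < ε := by
      have := min_le_right η ε
      rw [hd]; linarith
    have hF0 : aeval (Function.update r i (r i)) F = 0 := by
      rw [Function.update_eq_self]; exact hr
    have hplus : 0 < aeval (Function.update r i (r i + d)) F * f' := by
      have h1 := hsl (y := r i + d) (by
        rw [Real.dist_eq, add_sub_cancel_left, abs_of_pos hd0]; exact hdη) (by
        simp only [Set.mem_compl_iff, Set.mem_singleton_iff]
        linarith)
      rw [slope_def_field, hF0, sub_zero, add_sub_cancel_left] at h1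
      have h2 : aeval (Function.update r i (r i + d)) F * f' =
          aeval (Function.update r i (r i + d)) F / d * f' * d := by
        field_simp
      rw [h2]
      exact mul_pos h1 hd0
    have hminus : aeval (Function.update r i (r i - d)) F * f' < 0 := by
      have h1 := hsl (y := r i - d) (by
        rw [Real.dist_eq, sub_sub_cancel_left, abs_neg, abs_of_pos hd0]; exact hdη) (by
        simp only [Set.mem_compl_iff, Set.mem_singleton_iff]
        linarith)
      rw [slope_def_field, hF0, sub_zero, sub_sub_cancel_left] at h1
      have h2 : aeval (Function.update r i (r i - d)) F * f' =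
          -(aeval (Function.update r i (r i - d)) F / (-d) * f' * d) := by
        field_simp
      rw [h2]
      exact neg_neg_of_pos (mul_pos h1 hd0)
    have hcont : ∀ t : ℝ, Continuous fun y : σ → ℝ => aeval (Function.update y i t) F * f' := by
      intro t
      exact ((EL.continuous_aeval F).comp (continuous_id.update i continuous_const)).mul
        continuous_const
    have hev := ((hcont (r i + d)).continuousAt.eventually (lt_mem_nhds hplus)).and
      ((hcont (r i - d)).continuousAt.eventually (gt_mem_nhds hminus))
    obtain ⟨δ, hδ, hδ'⟩ := Metric.eventually_nhds_iff.mp hev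
    refine ⟨min δ ε, lt_min hδ hε, fun y hy => ?_⟩
    have hdist : dist y r < δ := by
      rw [dist_pi_lt_iff hδ]
      intro j
      rw [Real.dist_eq]
      exact lt_of_lt_of_le (hy j) (min_le_left _ _)
    obtain ⟨hp, hm'⟩ := hδ' hdist
    have hcont2 : Continuous fun t : ℝ => aeval (Function.update y i t) F * f' :=
      ((EL.continuous_aeval F).comp (continuous_const.update i continuous_id)).mul
        continuous_const
    have hivt := intermediate_value_Icc (a := r i - d) (b := r i + d) (by linarith)
      hcont2.continuousOn
    obtain ⟨t, ht, ht0⟩ := hivt ⟨hm'.le, hp.le⟩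
    have htF : aeval (Function.update y i t) F = 0 := by
      rcases mul_eq_zero.mp ht0 with h | h
      · exact h
      · exact absurd h hi
    refine ⟨t, htF, hball ?_ htF⟩
    rw [dist_pi_lt_iff hε]
    intro j
    rw [Real.dist_eq]
    by_cases hj : j = i
    · subst hj
      rw [Function.update_self]
      have h1 : |t - r j| ≤ d := by
        rw [abs_le]
        constructor
        · linarith [ht.1]
        · linarith [ht.2]
      exact lt_of_le_of_lt h1 hdε
    · rw [Function.update_of_ne hj]
      exact lt_of_lt_of_le (hy j) (min_le_right _ _)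
  have hvan : ∀ y : {j : σ // j ≠ i} → ℚ, (∀ j, |(y j : ℝ) - r j| < δ) → eval y c = 0 := by
    intro y hy
    let y' : σ → ℝ := fun j => if h : j ≠ i then (y ⟨j, h⟩ : ℝ) else r j
    obtain ⟨t, ht1, ht2⟩ := hbox y' (by
      intro j
      by_cases hj : j ≠ i
      · simp only [y', dif_pos hj]
        exact hy ⟨j, hj⟩
      · simp only [y', dif_neg hj, sub_self, abs_zero]
        exact hδ)
    have h1 := congrArg (aeval (Function.update y' i t)) hc
    rw [map_add, map_mul, map_mul, ht1, ht2, mul_zero, mul_zero, add_zero, aeval_rename] at h1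
    have h2 : (Function.update y' i t) ∘ (Subtype.val : {j : σ // j ≠ i} → σ) =
        fun j => algebraMap ℚ ℝ (y j) := by
      funext j
      simp only [Function.comp_apply]
      rw [Function.update_of_ne j.2]
      simp only [y', dif_pos j.2]
      rfl
    rw [h2] at h1
    have h3 := MvPolynomial.aeval_algebraMap_apply ℝ y c
    have h4 : (algebraMap ℚ ℝ) (aeval y c) = 0 := by
      rw [← h3]
      exact h1.symm
    have h5 : aeval y c = 0 := by
      apply (algebraMap ℚ ℝ).injective
      rw [h4, map_zero]
    exact h5
  refine MvPolynomial.funext_set (fun j : {j : σ // j ≠ i} => {q : ℚ | |(q : ℝ) - r j| < δ}) ?_ ?_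
  · intro j
    obtain ⟨q0, h1, h2⟩ := exists_rat_btwn (show r j < r j + δ / 2 by linarith)
    obtain ⟨e0, h3, h4⟩ := exists_rat_btwn (show (0 : ℝ) < δ / 2 by linarith)
    have he0 : (0 : ℚ) < e0 := by exact_mod_cast h3
    refine Set.infinite_of_injective_forall_mem (f := fun n : ℕ => q0 + e0 / (n + 1)) ?_ ?_
    · intro m n hmn
      have h5 : e0 / (m + 1 : ℚ) = e0 / (n + 1 : ℚ) := by
        simpa using hmn
      have hm : (m + 1 : ℚ) ≠ 0 := by positivity
      have hn : (n + 1 : ℚ) ≠ 0 := by positivity
      rw [div_eq_div_iff hm hn] at h5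
      have h6 := mul_left_cancel₀ he0.ne' h5
      have h7 : (n : ℚ) = m := by linarith
      exact_mod_cast h7.symm
    · intro n
      have hn : (0 : ℝ) < n + 1 := by positivity
      have h5 : (0 : ℝ) < e0 / (n + 1) := div_pos h3 hn
      have h6 : (e0 : ℝ) / (n + 1) ≤ e0 := by
        rw [div_le_iff₀ hn]
        nlinarith
      show |((q0 + e0 / (n + 1) : ℚ) : ℝ) - r j| < δ
      push_cast
      rw [abs_lt]
      constructor <;> linarith
  · intro y hy
    rw [map_zero]
    exact hvan y fun j => hy j trivial

end Pool.Agent.Work.QP
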