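import Mathlib
import Pool.Agent.Work.MP_b62148_ag.QPoint.Near
import Pool.Agent.Work.MP_b62148_ag.QPoint.Approx

/-!
Assembly of the density theorem for quartics with a rational point.
-/

namespace Pool.Agent.Work.QP

open MvPolynomial Pool.Agent.Work.PD6 Filter Topology

variable {σ : Type} [Fintype σ] [DecidableEq σ]

/-- the generic vector over the real polynomials -/
noncomputable def gx : σ → MvPolynomial σ ℝ := fun j => X j

/-- constant vectors over the real polynomials -/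
noncomputable def cv (v : σ → ℝ) : σ → MvPolynomial σ ℝ := fun j => C (v j)

/-- derivative of the functional -/
theorem pd_Lf (a : (σ →₀ ℕ) → ℚ) (i : σ) (m : ℕ) (vs : List (σ → ℝ)) :
    pderiv i (Lf a (ell (gx (σ := σ)) ^ (m + 1) * (vs.map fun v => ell (cv v)).prod) :
      MvPolynomial σ ℝ) =
    (m + 1 : ℝ) • Lf a (ell gx ^ m * ell (cv (Pi.single i 1)) *
      (vs.map fun v => ell (cv v)).prod) := by
  obtain ⟨D', h1, h2⟩ := exists_cD_ring
    ((pderiv i : Derivation ℝ (MvPolynomial σ ℝ) (MvPolynomial σ ℝ)).restrictScalars ℚ) a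
  have h3 := h2 (ell (gx (σ := σ)) ^ (m + 1) * (vs.map fun v => ell (cv v)).prod)
  have h4 : ∀ vs : List (σ → ℝ), D' (vs.map fun v => ell (cv v)).prod = 0 := by
    intro vs
    induction vs with
    | nil => simp
    | cons v vs ih =>
      rw [List.map_cons, List.prod_cons, Derivation.leibniz, ih, h1]
      have h5 : (fun i' => (Derivation.restrictScalars ℚ (pderiv i :
          Derivation ℝ (MvPolynomial σ ℝ) (MvPolynomial σ ℝ))) (cv v i')) =
          (0 : σ → MvPolynomial σ ℝ) := by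
        funext j
        show pderiv i (C (v j) : MvPolynomial σ ℝ) = 0
        exact pderiv_C
      rw [h5, ell_zero]; simp
  have h6 : (fun i' => (Derivation.restrictScalars ℚ (pderiv i :
      Derivation ℝ (MvPolynomial σ ℝ) (MvPolynomial σ ℝ))) (gx i')) = cv (Pi.single i 1) := by
    funext j
    show pderiv i (X j : MvPolynomial σ ℝ) = C ((Pi.single i 1 : σ → ℝ) j)
    rw [pderiv_X]
    by_cases hj : j = i
    · subst hj; simp
    · simp [Pi.single_eq_of_ne hj]
  rw [Derivation.leibniz, h4, smul_zero, zero_add, Derivation.leibniz_pow, h1, h6,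
    Nat.add_sub_cancel] at h3
  refine Eq.trans h3 ?_
  have h7 : (vs.map fun v => ell (cv v)).prod • (m + 1) • ell (gx (σ := σ)) ^ m •
      ell (cv (Pi.single i 1)) = ((m + 1 : ℕ) : MvPolynomial σ (MvPolynomial σ ℝ)) *
      (ell gx ^ m * ell (cv (Pi.single i 1)) * (vs.map fun v => ell (cv v)).prod) := by
    rw [nsmul_eq_mul]
    simp only [smul_eq_mul]
    ring
  rw [h7, Lf_nsmul, smul_eq_C_mul]
  congr 1
  simp

/-- evaluation -/
theorem ev_Lf (a : (σ →₀ ℕ) → ℚ) (x : σ → ℝ) (m : ℕ) (vs : List (σ → ℝ)) :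
    eval x (Lf a (ell (gx (σ := σ)) ^ m * (vs.map fun v => ell (cv v)).prod)) =
      Lf a (ell x ^ m * (vs.map fun v => ell v).prod) := by
  have h := map_Lf a ((aeval x : MvPolynomial σ ℝ →ₐ[ℝ] ℝ).restrictScalars ℚ)
    (ell (gx (σ := σ)) ^ m * (vs.map fun v => ell (cv v)).prod)
  have h0 : ((aeval x : MvPolynomial σ ℝ →ₐ[ℝ] ℝ).restrictScalars ℚ)
      (Lf a (ell (gx (σ := σ)) ^ m * (vs.map fun v => ell (cv v)).prod)) =
      eval x (Lf a (ell (gx (σ := σ)) ^ m * (vs.map fun v => ell (cv v)).prod)) := by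
    show aeval x _ = _
    rw [aeval_eq_eval]
  rw [← h0, h, RingHom.map_mul, RingHom.map_pow, map_ell]
  congr 2
  · congr 1
    congr 1
    funext j
    show aeval x (X j : MvPolynomial σ ℝ) = x j
    rw [aeval_X]
  · rw [map_list_prod, List.map_map]
    congr 1
    apply List.map_congr_left
    intro v _
    show MvPolynomial.map _ (ell (cv v)) = ell v
    rw [map_ell]
    congr 1
    funext j
    show aeval x (C (v j) : MvPolynomial σ ℝ) = v j
    rw [aeval_C]
    rfl

/-- partial polarisations of the form -/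
noncomputable def pl (a : (σ →₀ ℕ) → ℚ) (m : ℕ) (vs : List (σ → ℝ)) : MvPolynomial σ ℝ :=
  Lf a (ell (gx (σ := σ)) ^ m * (vs.map fun v => ell (cv v)).prod)

theorem pderiv_pl (a : (σ →₀ ℕ) → ℚ) (i : σ) (m : ℕ) (vs : List (σ → ℝ)) :
    pderiv i (pl a (m + 1) vs) = (m + 1 : ℝ) • pl a m (Pi.single i 1 :: vs) := by
  rw [pl, pd_Lf, pl, List.map_cons, List.prod_cons, mul_assoc]

theorem dir_pl (a : (σ →₀ ℕ) → ℚ) (u : σ → ℝ) (m : ℕ) (vs : List (σ → ℝ)) :
    ∑ i, C (u i) * pderiv i (pl a (m + 1) vs) = (m + 1 : ℝ) • pl a m (u :: vs) := by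
  have h1 : ∀ i, C (u i) * pderiv i (pl a (m + 1) vs) = (m + 1 : ℝ) •
      Lf a (C (C (u i)) * ell (cv (Pi.single i 1 : σ → ℝ)) *
        (ell (gx (σ := σ)) ^ m * (vs.map fun v => ell (cv v)).prod)) := by
    intro i
    have h0 : (C (C (u i)) : MvPolynomial σ (MvPolynomial σ ℝ)) *
        ell (cv (Pi.single i 1 : σ → ℝ)) *
        (ell (gx (σ := σ)) ^ m * (vs.map fun v => ell (cv v)).prod) =
        C (C (u i)) * (ell (gx (σ := σ)) ^ m * (ell (cv (Pi.single i 1 : σ → ℝ)) *
          (vs.map fun v => ell (cv v)).prod)) := by ring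
    rw [pderiv_pl, mul_smul_comm, pl, h0, Lf_C_mul, List.map_cons, List.prod_cons]
  rw [Finset.sum_congr rfl fun i _ => h1 i, ← Finset.smul_sum, ← map_sum, ← Finset.sum_mul]
  have h2 : ∑ i, (C (C (u i)) : MvPolynomial σ (MvPolynomial σ ℝ)) *
      ell (cv (Pi.single i 1 : σ → ℝ)) = ell (cv u) := by
    have h3 : (cv u : σ → MvPolynomial σ ℝ) = ∑ i, (C (u i) : MvPolynomial σ ℝ) •
        (cv (Pi.single i 1 : σ → ℝ)) := by
      funext j
      rw [Finset.sum_apply, Finset.sum_eq_single j]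
      · simp [cv]
      · intro i _ hij
        simp [cv, Pi.single_eq_of_ne (Ne.symm hij)]
      · intro h; exact absurd (Finset.mem_univ j) h
    rw [h3, ell_sum_smul]
  have h4 : ell (cv u) * (ell (gx (σ := σ)) ^ m * (vs.map fun v => ell (cv v)).prod) =
      ell (gx (σ := σ)) ^ m * (ell (cv u) * (vs.map fun v => ell (cv v)).prod) := by ring
  rw [h2, pl, h4, List.map_cons, List.prod_cons]

theorem eval_pl (a : (σ →₀ ℕ) → ℚ) (x : σ → ℝ) (m : ℕ) (vs : List (σ → ℝ)) :
    eval x (pl a m vs) = Lf a (ell x ^ m * (vs.map fun v => ell v).prod) := ev_Lf a x m vs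

theorem map_F (F : MvPolynomial σ ℚ) (a : (σ →₀ ℕ) → ℚ) (ha : IsPol 4 F a) :
    map (algebraMap ℚ ℝ) F = pl a 4 [] := by
  have h1 := map_Lf a (mapAlgHom (Algebra.ofId ℚ ℝ) : MvPolynomial σ ℚ →ₐ[ℚ] MvPolynomial σ ℝ)
    (ell (fun i => (X i : MvPolynomial σ ℚ)) ^ 4)
  rw [ha] at h1
  have h2 : (mapAlgHom (Algebra.ofId ℚ ℝ) : MvPolynomial σ ℚ →ₐ[ℚ] MvPolynomial σ ℝ) F =
      map (algebraMap ℚ ℝ) F := rfl
  rw [← h2, h1, RingHom.map_pow, map_ell, pl, List.map_nil, List.prod_nil, mul_one]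
  congr 3
  funext j
  show map _ (X j) = X j
  rw [map_X]

section Der

variable (F : MvPolynomial σ ℚ) (a : (σ →₀ ℕ) → ℚ) (ha : IsPol 4 F a)

include ha

theorem ev0 (x : σ → ℝ) : eval x (map (algebraMap ℚ ℝ) F) = q4 a x x x x := by
  have h : (ell x ^ 4 : MvPolynomial σ ℝ) = ell x * ell x * ell x * ell x := by ring
  rw [map_F F a ha, eval_pl, List.map_nil, List.prod_nil, mul_one, q4, h]

theorem ev1 (x : σ → ℝ) (i : σ) : eval x (pderiv i (map (algebraMap ℚ ℝ) F)) =
    4 * q4 a x x x (Pi.single i 1) := by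
  rw [map_F F a ha, pderiv_pl a i 3, smul_eval, eval_pl, List.map_cons, List.map_nil,
    List.prod_cons, List.prod_nil, mul_one, q4]
  push_cast
  have : (ell x ^ 3 * ell (Pi.single i 1) : MvPolynomial σ ℝ) =
    ell x * ell x * ell x * ell (Pi.single i 1) := by ring
  rw [this]
  ring

theorem ev2 (x u : σ → ℝ) (i : σ) :
    eval x (pderiv i (∑ j, C (u j) * pderiv j (map (algebraMap ℚ ℝ) F))) =
    12 * q4 a x x u (Pi.single i 1) := by
  rw [map_F F a ha, dir_pl a u 3, Derivation.map_smul, pderiv_pl a i 2, smul_eval, smul_eval,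
    eval_pl,
    List.map_cons, List.map_cons, List.map_nil,
    List.prod_cons, List.prod_cons, List.prod_nil, mul_one, q4]
  have : (ell x ^ 2 * (ell (Pi.single i 1) * ell u) : MvPolynomial σ ℝ) =
    ell x * ell x * ell u * ell (Pi.single i 1) := by ring
  rw [this]
  push_cast
  ring

theorem ev3 (x u : σ → ℝ) (i : σ) :
    eval x (pderiv i (∑ l, C (u l) * pderiv l
      (∑ j, C (u j) * pderiv j (map (algebraMap ℚ ℝ) F)))) =
    24 * q4 a x u u (Pi.single i 1) := by
  have h1 : ∀ l, C (u l) * pderiv l ((3 + 1 : ℝ) • pl a 3 (u :: [])) =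
      (3 + 1 : ℝ) • (C (u l) * pderiv l (pl a (2 + 1) (u :: []))) := by
    intro l
    rw [Derivation.map_smul, mul_smul_comm]
  rw [map_F F a ha, dir_pl a u 3]
  push_cast
  rw [Finset.sum_congr rfl fun l _ => h1 l, ← Finset.smul_sum, dir_pl a u 2, Derivation.map_smul,
    Derivation.map_smul, pderiv_pl a i 1, smul_eval, smul_eval, smul_eval, eval_pl,
    List.map_cons, List.map_cons, List.map_cons, List.map_nil,
    List.prod_cons, List.prod_cons, List.prod_cons, List.prod_nil, mul_one, q4]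
  have : (ell x ^ 1 * (ell (Pi.single i 1) * (ell u * ell u)) : MvPolynomial σ ℝ) =
    ell x * ell u * ell u * ell (Pi.single i 1) := by ring
  rw [this]
  push_cast
  ring

theorem evh (x : σ → ℝ) (i j : σ) :
    eval x (pderiv i (pderiv j (map (algebraMap ℚ ℝ) F))) =
    12 * q4 a x x (Pi.single i 1) (Pi.single j 1) := by
  rw [map_F F a ha, pderiv_pl a j 3, Derivation.map_smul, pderiv_pl a i 2, smul_eval, smul_eval,
    eval_pl,
    List.map_cons, List.map_cons, List.map_nil,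
    List.prod_cons, List.prod_cons, List.prod_nil, mul_one, q4]
  have : (ell x ^ 2 * (ell (Pi.single i 1) * ell (Pi.single j 1)) : MvPolynomial σ ℝ) =
    ell x * ell x * ell (Pi.single i 1) * ell (Pi.single j 1) := by ring
  rw [this]
  push_cast
  ring

end Der

end Pool.Agent.Work.QP
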