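import Mathlib
import Pool.Agent.Work.MP_b62148_ag.QPoint.Main

/-!
Final assembly of the density theorem for quartics with a rational point.
-/

namespace Pool.Agent.Work.QP

open MvPolynomial Pool.Agent.Work.PD6 Filter Topology

variable {σ : Type} [Fintype σ] [DecidableEq σ]

theorem flex_coeffs (a : (σ →₀ ℕ) → ℚ) (x y : σ → ℝ) (c : ℝ)
    (h : ∀ t : ℝ, q4 a (x + t • y) (x + t • y) (x + t • y) (x + t • y) = c * t ^ 3) :
    q4 a x x x x = 0 ∧ q4 a x x x y = 0 ∧ q4 a x x y y = 0 ∧ 4 * q4 a x y y y = c ∧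
      q4 a y y y y = 0 := by
  have h1 : ∀ t : ℝ, q4 a (x + t • y) (x + t • y) (x + t • y) (x + t • y) =
      q4 a x x x x + 4 * t * q4 a x x x y + 6 * t ^ 2 * q4 a x x y y + 4 * t ^ 3 * q4 a x y y y +
        t ^ 4 * q4 a y y y y := by
    intro t
    have e : (ell (x + t • y) * ell (x + t • y) * ell (x + t • y) * ell (x + t • y) :
        MvPolynomial σ ℝ) = ell x * ell x * ell x * ell x +
        C (4 * t) * (ell x * ell x * ell x * ell y) +
        C (6 * t ^ 2) * (ell x * ell x * ell y * ell y) +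
        C (4 * t ^ 3) * (ell x * ell y * ell y * ell y) +
        C (t ^ 4) * (ell y * ell y * ell y * ell y) := by
      simp only [ell_add, ell_smul, map_mul, map_pow, map_ofNat]
      ring
    simp only [q4, e, map_add, Lf_C_mul]
  simp only [h1] at h
  have t0 := h 0
  have t1 := h 1
  have t2 := h (-1)
  have t3 := h 2
  have t4 := h (-2)
  norm_num at t0 t1 t2 t3 t4
  refine ⟨?_, ?_, ?_, ?_, ?_⟩ <;> linarith

theorem aeval_eq_ev (F : MvPolynomial σ ℚ) (x : σ → ℝ) :
    aeval x F = eval x (map (algebraMap ℚ ℝ) F) := by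
  rw [eval_map, aeval_def]

theorem main_of
    (helim : ∀ (F : MvPolynomial σ ℚ), Irreducible F → ∀ (r : σ → ℝ) (i : σ),
      aeval r F = 0 → aeval r (pderiv i F) ≠ 0 → ∀ G : MvPolynomial σ ℚ,
      (∀ᶠ r' in 𝓝 r, aeval r' F = 0 → aeval r' G = 0) → F ∣ G)
    (F : MvPolynomial σ ℚ) (hF : F.IsHomogeneous 4) (hirr : Irreducible F)
    (p : σ → ℚ) (q r : σ → ℝ) (c d : ℝ) (hc : c ≠ 0) (hd : d ≠ 0)
    (hpq : ∀ t : ℝ, eval (rv p + t • q) (map (algebraMap ℚ ℝ) F) = c * t ^ 3)
    (hqr : ∀ t : ℝ, eval (q + t • r) (map (algebraMap ℚ ℝ) F) = d * t ^ 3)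
    (hp : 7 ≤ (Matrix.of fun i j => eval (rv p) (pderiv i (pderiv j
      (map (algebraMap ℚ ℝ) F)))).rank)
    (hq : 7 ≤ (Matrix.of fun i j => eval q (pderiv i (pderiv j
      (map (algebraMap ℚ ℝ) F)))).rank)
    (hli : LinearIndependent ℝ ![
      fun i => eval (rv p) (pderiv i (map (algebraMap ℚ ℝ) F)),
      fun i => eval (rv p) (pderiv i (∑ j, C (q j) * pderiv j (map (algebraMap ℚ ℝ) F))),
      fun i => eval q (pderiv i (map (algebraMap ℚ ℝ) F)),
      fun i => eval q (pderiv i (∑ j, C (r j) * pderiv j (map (algebraMap ℚ ℝ) F))),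
      fun i => eval q (pderiv i (∑ l, C (r l) * pderiv l
        (∑ j, C (r j) * pderiv j (map (algebraMap ℚ ℝ) F))))])
    (G : MvPolynomial σ ℚ) (hG : ∀ x : σ → ℚ, eval x F = 0 → eval x G = 0) : F ∣ G := by
  obtain ⟨a, ha⟩ := exists_isPol 4 F hF
  simp only [ev0 F a ha] at hpq hqr
  obtain ⟨p0, p1, p2, p3, p4⟩ := flex_coeffs a (rv p) q c hpq
  obtain ⟨q0, q1, q2, q3, q4'⟩ := flex_coeffs a q r d hqr
  have hrk : ∀ x : σ → ℝ, 7 ≤ (Matrix.of fun i j => eval x (pderiv i (pderiv j
      (map (algebraMap ℚ ℝ) F)))).rank → ∃ f : Fin 7 → σ,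
      LinearIndependent ℝ fun i => hm a x (f i) := by
    intro x hx
    obtain ⟨f, hf⟩ := (Op.rank_rows _).mp hx
    refine ⟨f, ?_⟩
    rw [Fintype.linearIndependent_iff] at hf ⊢
    intro g hg i
    refine hf g ?_ i
    funext j
    have h1 := congrFun hg j
    simp only [Finset.sum_apply, Pi.smul_apply, smul_eq_mul, Pi.zero_apply, Matrix.of_apply] at h1 ⊢
    have h2 : ∀ i, g i * eval x (pderiv (f i) (pderiv j (map (algebraMap ℚ ℝ) F))) =
        12 * (g i * hm a x (f i) j) := by
      intro i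
      rw [evh F a ha]
      simp only [hm, Matrix.of_apply]
      ring
    rw [Finset.sum_congr rfl fun i _ => h2 i, ← Finset.mul_sum, h1, mul_zero]
  have hfam : LinearIndependent ℝ (Op.fam a (rv p) q r) := by
    rw [Fintype.linearIndependent_iff] at hli ⊢
    intro g hg
    have h1 : ∀ j, g 0 * q4 a (rv p) (rv p) (rv p) (Pi.single j 1) +
        g 1 * q4 a (rv p) (rv p) q (Pi.single j 1) + g 2 * q4 a q q q (Pi.single j 1) +
        g 3 * q4 a q q r (Pi.single j 1) + g 4 * q4 a q r r (Pi.single j 1) = 0 := by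
      intro j
      have h2 := congrArg (fun f : (σ → ℝ) →L[ℝ] ℝ => f (Pi.single j 1)) hg
      rw [Fin.sum_univ_five] at h2
      exact h2
    have h3 := hli ![g 0 / 4, g 1 / 12, g 2 / 4, g 3 / 12, g 4 / 24] (by
      funext j
      rw [Fin.sum_univ_five]
      simp only [Matrix.cons_val_zero, Matrix.cons_val_one, Matrix.cons_val, Pi.add_apply,
        Pi.smul_apply, smul_eq_mul, Pi.zero_apply]
      rw [ev1 F a ha, ev2 F a ha, ev1 F a ha, ev2 F a ha, ev3 F a ha, ← h1 j]
      ring)
    have e0 : g 0 = 0 := by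
      have h : g 0 / 4 = 0 := h3 0
      linarith
    have e1 : g 1 = 0 := by
      have h : g 1 / 12 = 0 := h3 1
      linarith
    have e2 : g 2 = 0 := by
      have h : g 2 / 4 = 0 := h3 2
      linarith
    have e3 : g 3 = 0 := by
      have h : g 3 / 12 = 0 := h3 3
      linarith
    have e4 : g 4 = 0 := by
      have h : g 4 / 24 = 0 := h3 4
      linarith
    intro i
    fin_cases i
    · exact e0
    · exact e1
    · exact e2
    · exact e3
    · exact e4
  have hpp : q4 a p p p p = 0 := by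
    rw [Op.q4_rv] at p0
    exact_mod_cast p0
  have hnear := Op.near_of a (fun p hp hr hp0 x h1 h2 h3 h4 hns =>
      approx a p hp hr hp0 x h1 h2 h3 h4 hns) p hpp (Op.rank_rat a p (hrk _ hp)) q r p1 p2
    (by intro h; apply hc; rw [← p3, h, mul_zero]) p4 ((Op.rank_rows _).mpr (hrk _ hq)) q1 q2
    (by intro h; apply hd; rw [← q3, h, mul_zero]) q4' hfam
  -- a nonvanishing partial derivative at `r`
  have hgr : ∃ i, aeval r (pderiv i F) ≠ 0 := by
    by_contra hne
    push Not at hne
    have h1 := isPol_grad ha r q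
    simp only [hne, zero_mul, Finset.sum_const_zero] at h1
    have h2 : Lf a (ell r ^ 3 * ell q) = q4 a q r r r := by
      rw [q4]; congr 1; ring
    rw [h2] at h1
    have h3 : q4 a q r r r = 0 := by
      have : (3 + 1 : ℝ) ≠ 0 := by norm_num
      rcases mul_eq_zero.mp h1.symm with h | h
      · exact absurd (by exact_mod_cast h) this
      · exact h
    apply hd
    rw [← q3, h3, mul_zero]
  obtain ⟨i, hi⟩ := hgr
  have hFz : ∀ x : σ → ℝ, aeval x F = q4 a x x x x := by
    intro x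
    rw [aeval_eq_ev, ev0 F a ha]
  refine helim F hirr r i (by rw [hFz, q4']) hi G ?_
  filter_upwards [hnear] with r' hr' hz
  rw [hFz] at hz
  have hcl := hr' hz
  have hclosed : IsClosed {x : σ → ℝ | aeval x G = 0} := by
    have h1 : Continuous fun x : σ → ℝ => aeval x G := by
      have h2 : (fun x : σ → ℝ => aeval x G) = fun x => eval x (map (algebraMap ℚ ℝ) G) := by
        funext x; exact aeval_eq_ev G x
      rw [h2]
      exact MvPolynomial.continuous_eval _
    exact isClosed_eq h1 continuous_const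
  have hsub : Zr a ⊆ {x : σ → ℝ | aeval x G = 0} := by
    rintro x ⟨y, hy, rfl⟩
    have h1 : eval y F = 0 := by
      have h2 : eval y F = aeval y F := by rw [aeval_eq_eval]
      rw [h2, ha.aeval_eq]
      have h3 : (ell y ^ 4 : MvPolynomial σ ℚ) = ell y * ell y * ell y * ell y := by ring
      rw [h3]
      exact hy
    have h4 := hG y h1
    show aeval (rv y) G = 0
    have h5 : aeval (rv y) G = ((eval y G : ℚ) : ℝ) := by
      have h6 : (aeval (rv y) : MvPolynomial σ ℚ →ₐ[ℚ] ℝ) = (Algebra.ofId ℚ ℝ).comp (aeval y) := by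
        apply MvPolynomial.algHom_ext
        intro i
        simp [rv]
      rw [h6, AlgHom.comp_apply, aeval_eq_eval]
      rfl
    rw [h5, h4, Rat.cast_zero]
  exact closure_minimal hsub hclosed hcl

end Pool.Agent.Work.QP
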