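import Mathlib
import Pool.Agent.Work.MP_b62148_ag.QPoint.Defs

/-!
Statements of the modules of the density theorem for quartics with a rational point.
-/

namespace Pool.Agent.Work.QP

open MvPolynomial Pool.Agent.Work.PD6 Filter Topology

variable {σ : Type} [Fintype σ]

/-! ### module Approx -/

theorem approx [DecidableEq σ] (a : (σ →₀ ℕ) → ℚ) (p : σ → ℚ) (hp : q4 a p p p p = 0)
    (hr : 7 ≤ (hm a p).rank) (x : σ → ℝ) (h1 : q4 a (rv p) (rv p) (rv p) x = 0)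
    (h2 : q4 a (rv p) (rv p) x x = 0) (h3 : q4 a (rv p) x x x ≠ 0) (h4 : q4 a x x x x = 0)
    (hns : ∃ u : σ → ℝ, q4 a (rv p) (rv p) (rv p) u = 0 ∧ q4 a (rv p) (rv p) x u ≠ 0) :
    x ∈ closure (Zr a) := by
  sorry

/-! ### module Open -/

theorem near [DecidableEq σ] (a : (σ →₀ ℕ) → ℚ) (p : σ → ℚ) (hp : q4 a p p p p = 0)
    (hr : 7 ≤ (hm a p).rank) (q r : σ → ℝ)
    (h1 : q4 a (rv p) (rv p) (rv p) q = 0) (h2 : q4 a (rv p) (rv p) q q = 0)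
    (h3 : q4 a (rv p) q q q ≠ 0) (h4 : q4 a q q q q = 0) (hrq : 7 ≤ (hm a q).rank)
    (g1 : q4 a q q q r = 0) (g2 : q4 a q q r r = 0) (g3 : q4 a q r r r ≠ 0) (g4 : q4 a r r r r = 0)
    (hli : ∀ c : Fin 5 → ℝ, (∀ v : σ → ℝ, c 0 * q4 a (rv p) (rv p) (rv p) v +
      c 1 * q4 a (rv p) (rv p) q v + c 2 * q4 a q q q v + c 3 * q4 a q q r v +
      c 4 * q4 a q r r v = 0) → c = 0) :
    ∀ᶠ r' in 𝓝 r, q4 a r' r' r' r' = 0 → r' ∈ closure (Zr a) := by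
  sorry

/-! ### module Elim -/

theorem elim (F : MvPolynomial σ ℚ) (hF : Irreducible F) (r : σ → ℝ) (i : σ)
    (hr : aeval r F = 0) (hi : aeval r (pderiv i F) ≠ 0) (G : MvPolynomial σ ℚ)
    (hG : ∀ᶠ r' in 𝓝 r, aeval r' F = 0 → aeval r' G = 0) : F ∣ G := by
  sorry

end Pool.Agent.Work.QP
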